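import Pool.Agent.Helper34.PU.Goals

set_option autoImplicit false

open Finset
open scoped Classical

namespace Pool.Agent.Helper65.PU

open Pool.Agent.Helper34.PU

lemma pf_single (β T D : ℕ) (J0 K J : Finset (Fin T)) (g : Pt T D → ℝ) (h0 : J0 ⊆ J) (hK : J ⊆ K)
    (hc : J.card ≤ β) (hg : ∀ φ, |g φ| ≤ 1) (hd : Dep J g) : PF β J0 K g := by
  refine ⟨fun J' φ => if J' = J then g φ else 1, ?_, ?_, ?_⟩
  · intro J' φ
    by_cases h : J' = J
    · simp only [h, if_true]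
      exact hg φ
    · simp only [h, if_false]
      simp
  · intro J' φ ψ hφ
    by_cases h : J' = J
    · subst h
      simp only [if_true]
      exact hd φ ψ hφ
    · simp only [h, if_false]
  · intro φ
    rw [Finset.prod_eq_single J]
    · simp
    · intro J' _ hne
      simp [hne]
    · intro hn
      exact absurd (Finset.mem_filter.2 ⟨Finset.mem_powerset.2 hK, h0, hc⟩) hn

lemma pf_mul (β T D : ℕ) (J0 K1 K2 : Finset (Fin T)) (F1 F2 : Pt T D → ℝ) (h1 : PF β J0 K1 F1)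
    (h2 : PF β J0 K2 F2) : PF β J0 (K1 ∪ K2) (fun φ => F1 φ * F2 φ) := by
  obtain ⟨g1, hb1, hd1, he1⟩ := h1
  obtain ⟨g2, hb2, hd2, he2⟩ := h2
  set s1 := K1.powerset.filter (fun J => J0 ⊆ J ∧ J.card ≤ β) with hs1
  set s2 := K2.powerset.filter (fun J => J0 ⊆ J ∧ J.card ≤ β) with hs2
  have hsub1 : s1 ⊆ (K1 ∪ K2).powerset.filter (fun J => J0 ⊆ J ∧ J.card ≤ β) := by
    intro J hJ
    rw [hs1, Finset.mem_filter, Finset.mem_powerset] at hJ
    rw [Finset.mem_filter, Finset.mem_powerset]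
    exact ⟨hJ.1.trans Finset.subset_union_left, hJ.2⟩
  have hsub2 : s2 ⊆ (K1 ∪ K2).powerset.filter (fun J => J0 ⊆ J ∧ J.card ≤ β) := by
    intro J hJ
    rw [hs2, Finset.mem_filter, Finset.mem_powerset] at hJ
    rw [Finset.mem_filter, Finset.mem_powerset]
    exact ⟨hJ.1.trans Finset.subset_union_right, hJ.2⟩
  refine ⟨fun J φ => (if J ∈ s1 then g1 J φ else 1) * (if J ∈ s2 then g2 J φ else 1), ?_, ?_, ?_⟩
  · intro J φ
    have e1 : |if J ∈ s1 then g1 J φ else 1| ≤ 1 := by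
      split_ifs
      · exact hb1 J φ
      · simp
    have e2 : |if J ∈ s2 then g2 J φ else 1| ≤ 1 := by
      split_ifs
      · exact hb2 J φ
      · simp
    rw [abs_mul]
    exact mul_le_one₀ e1 (abs_nonneg _) e2
  · intro J φ ψ h
    simp only [hd1 J φ ψ h, hd2 J φ ψ h]
  · intro φ
    simp only [he1 φ, he2 φ]
    rw [Finset.prod_mul_distrib, Finset.prod_ite_mem, Finset.prod_ite_mem,
      Finset.inter_eq_right.2 hsub1, Finset.inter_eq_right.2 hsub2]

lemma pf_prod (β T D : ℕ) (J0 K : Finset (Fin T)) (ι : Type) (S : Finset ι) (F : ι → Pt T D → ℝ)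
    (h : ∀ i ∈ S, PF β J0 K (F i)) : PF β J0 K (fun φ => ∏ i ∈ S, F i φ) := by
  choose! G hG using h
  refine ⟨fun J φ => ∏ i ∈ S, G i J φ, ?_, ?_, ?_⟩
  · intro J φ
    rw [Finset.abs_prod]
    exact Finset.prod_le_one (fun i _ => abs_nonneg _) (fun i hi => (hG i hi).1 J φ)
  · intro J φ ψ hφ
    exact Finset.prod_congr rfl fun i hi => (hG i hi).2.1 J φ ψ hφ
  · intro φ
    beta_reduce
    rw [Finset.prod_comm]
    exact Finset.prod_congr rfl fun i hi => (hG i hi).2.2 φ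

lemma pf_abs (β T D : ℕ) (J0 K : Finset (Fin T)) (F : Pt T D → ℝ) (h : PF β J0 K F)
    (φ : Pt T D) : |F φ| ≤ 1 := by
  obtain ⟨g, hb, _, he⟩ := h
  rw [he φ, Finset.abs_prod]
  exact Finset.prod_le_one (fun i _ => abs_nonneg _) (fun i _ => hb i φ)

theorem pflib : PFLibStmt :=
  ⟨pf_single, pf_mul, pf_prod, pf_abs⟩

end Pool.Agent.Helper65.PU
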